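import Mathlib
import Pool.Agent.K4H36.Kl.Main

/-!
# MP_fc5d3b_co: Klarner's constant has computable decreasing rational upper approximations

Proof idea.  A connected set `S` of `N ≥ 2` cells splits into two connected parts with at least
`N / 5` and `(N - 1) / 5` cells (cut off a smallest connected part with at least `N / 5` cells whose
complement in `S` is connected). Hence `t(N) ≤ N ^ 4 * ∑ t(a) t(N - a)`, the sum over these sizes `a`.
By induction, the finitely many inequalities `50 ^ 5 m ^ 5 t(m) ≤ β ^ m` for `j ≤ m ≤ 5 j` imply the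
same inequality for all `m ≥ j`, so `λ ≤ β`.  For `β > λ` they hold for all large `j`, since
`t(m) ≤ λ ^ m`.  The test stays sound and complete when `t(m)` is replaced by the number of connected
sets of `m` cells in the `m × m` box, which is at least `t(m)` and at most `m ^ 2 t(m)`.
-/

set_option autoImplicit false

open Filter Topology

namespace Pool.Agent.Results.MP_fc5d3b_co.ComputableUpperBounds

/-! ### Polyominoes -/

/-- The adjacency graph of the cells `[u, v]` of the square lattice, labelled by `ℤ × ℤ`: two cells
are adjacent when they share an edge. -/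
def grid : SimpleGraph (ℤ × ℤ) where
  Adj a b := |a.1 - b.1| + |a.2 - b.2| = 1
  symm := ⟨fun a b h => by rw [abs_sub_comm b.1, abs_sub_comm b.2]; exact h⟩
  loopless := ⟨fun a h => by simp at h⟩

/-- An `n`-omino: a set of `n` cells which is connected under edge-adjacency. -/
def IsOmino (n : ℕ) (s : Finset (ℤ × ℤ)) : Prop :=
  s.card = n ∧ (grid.induce (s : Set (ℤ × ℤ))).Connected

/-- The translate of a finite set of cells by a vector. -/
def shift (v : ℤ × ℤ) (s : Finset (ℤ × ℤ)) : Finset (ℤ × ℤ) := s.map (addRightEmbedding v)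

/-- Two `n`-ominoes are equivalent when one is a translate of the other. -/
def transSetoid (n : ℕ) : Setoid {s : Finset (ℤ × ℤ) // IsOmino n s} where
  r s t := ∃ v : ℤ × ℤ, (t : Finset (ℤ × ℤ)) = shift v s
  iseqv := (Pool.Agent.K4H36.Kl.transSetoid n).iseqv

/-- The number `t(n)` of fixed `n`-ominoes: classes of `n`-ominoes modulo translations. -/
noncomputable def fixedCount (n : ℕ) : ℕ := Nat.card (Quotient (transSetoid n))

/-! ### The algorithm -/

/-- Edge-adjacency of cells with natural coordinates. -/
def adjN (a b : ℕ × ℕ) : Prop :=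
  (a.1 = b.1 ∧ (a.2 + 1 = b.2 ∨ b.2 + 1 = a.2)) ∨ (a.2 = b.2 ∧ (a.1 + 1 = b.1 ∨ b.1 + 1 = a.1))

instance : DecidableRel adjN := fun a b => by unfold adjN; infer_instance

/-- The list of all sublists of a list. -/
def subs (L : List (ℕ × ℕ)) : List (List (ℕ × ℕ)) :=
  L.foldr (fun a acc => acc ++ acc.map (List.cons a)) [[]]

/-- Connectivity test: each nonempty proper part of the list has an edge to the rest. -/
def connL (l : List (ℕ × ℕ)) : Prop :=
  ∀ s ∈ subs l, s = [] ∨ l.length ≤ s.length ∨ ∃ a ∈ s, ∃ b ∈ l, b ∉ s ∧ adjN a b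

instance : DecidablePred connL := fun l => by unfold connL; infer_instance

/-- The list of the cells of the `n × n` box. -/
def boxL (n : ℕ) : List (ℕ × ℕ) :=
  (List.range n).flatMap (fun i => (List.range n).map (fun k => (i, k)))

/-- The number of connected sets of `n` cells in the `n × n` box, by enumeration. -/
def boxCount (n : ℕ) : ℕ := ((subs (boxL n)).filter (fun l => l.length = n ∧ connL l)).length

/-- The finite test with parameters `j, p, q`; it implies `λ ≤ p / q` when `j` is positive. -/
def cert (j p q : ℕ) : Prop :=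
  ∀ m < 5 * j + 1, m < j ∨ 50 ^ 5 * m ^ 5 * boxCount m * q ^ m ≤ p ^ m

instance (j p q : ℕ) : Decidable (cert j p q) := by unfold cert; infer_instance

/-- One of the tests with `1 ≤ j ≤ n + 1` is passed by the fraction `p / 2 ^ n`. -/
def good (n p : ℕ) : Prop := ∃ j < n + 1, cert (j + 1) p (2 ^ n)

instance (n p : ℕ) : Decidable (good n p) := by unfold good; infer_instance

/-- The numerator of the `n`-th upper approximation: one more than the least `p` such that `p / 2 ^ n`
passes one of the tests (it is found below an explicit bound). -/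
def numer (n : ℕ) : ℕ :=
  Nat.findGreatest (fun p => ¬ good n p) (2 ^ n * (50 ^ 5 * 5 ^ 5 * 2 ^ 25)) + 2

/-- The `n`-th rational upper approximation. -/
def beta (n : ℕ) : ℚ := (numer n : ℚ) / 2 ^ n

/-! ### The result -/

theorem grid_eq : grid = Pool.Agent.K4H36.Kl.grid := rfl

theorem fixedCount_eq : fixedCount = Pool.Agent.K4H36.Kl.fixedCount := rfl

theorem numer_eq : numer = Pool.Agent.K4H36.Kl.numer := rfl

/-- **Klarner's constant is a computable real number.**  The limit `λ` of `t(n) ^ (1 / n)` exists,
and the explicit sequence of rational numbers `beta n = numer n / 2 ^ n`, whose numerators form a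
computable function `ℕ → ℕ`, is strictly decreasing and converges to `λ`. -/
theorem result : ∃ lam : ℝ,
    Tendsto (fun n : ℕ => (fixedCount n : ℝ) ^ (1 / (n : ℝ))) atTop (𝓝 lam) ∧
    Computable numer ∧ StrictAnti beta ∧
    Tendsto (fun n : ℕ => (beta n : ℝ)) atTop (𝓝 lam) := by
  obtain ⟨lam, h1, h2, h3, h4⟩ := Pool.Agent.K4H36.Kl.main
  refine ⟨lam, ?_, ?_, ?_, ?_⟩
  · rw [fixedCount_eq]
    exact h1
  · rw [numer_eq]
    exact h2.to_comp
  · apply strictAnti_nat_of_succ_lt
    intro n
    have h5 := h3 n
    rw [← numer_eq] at h5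
    have h6 : ((beta (n + 1) : ℚ) : ℝ) < ((beta n : ℚ) : ℝ) := by
      unfold beta
      push_cast
      exact h5
    exact_mod_cast h6
  · rw [← numer_eq] at h4
    refine h4.congr ?_
    intro n
    unfold beta
    push_cast
    rfl

end Pool.Agent.Results.MP_fc5d3b_co.ComputableUpperBounds
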